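import Pool.Agent.Lib.P23H.SolU

/-!
# Module P23H.CptP: amalgamation and compactness

PROOF. `SolP.mono`: apply the hypothesis to `μ.comp I.toLinearMap`, `gs 𝒩' ε (I w) = gs 𝒩 ε w`, and compose with `I`
(`c' ε ≤ c ε`, `gs ≥ 0`). `amalg`: `M = M₁ + M₂`, `I₁`, `I₂` the two coordinate inclusions (or: identify
`WithLp 2 (Eu M₁ × Eu M₂)` with `Eu M` by `stdOrthonormalBasis`), `𝒩 = 𝒩₁ ∘ P₁ + 𝒩₂ ∘ P₂` with the coordinate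
projections. `cptP`: `IsCompact.induction_on` for the property
`∃ M 𝒩 c, 0 < c ∧ ∀ z ∈ s, z ∈ Tup n k → SolP 𝒩 c z` (unions by `amalg`; locally by `famP`).
-/

set_option autoImplicit false

namespace P23H

theorem SolP.mono {M M' : ℕ} {𝒩 : Seminorm ℝ (Eu M)} {𝒩' : Seminorm ℝ (Eu M')}
    (I : Eu M →ₗᵢ[ℝ] Eu M') (hI : ∀ w, 𝒩' (I w) = 𝒩 w) {c c' : ℝ} (hc : c' ≤ c) {n k : ℕ}
    {z : Fin k → Eu n} (h : SolP 𝒩 c z) : SolP 𝒩' c' z := by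
  intro ε hε hε1 μ hμ
  obtain ⟨S, hS⟩ := h ε hε hε1 (μ.comp I.toLinearMap) (by
    intro w
    have h1 := hμ (I w)
    have h2 : gs 𝒩' ε (I w) = gs 𝒩 ε w := by
      show √(‖I w‖ ^ 2 + (√ε * 𝒩' (I w)) ^ 2) = √(‖w‖ ^ 2 + (√ε * 𝒩 w) ^ 2)
      rw [I.norm_map, hI]
    rw [h2] at h1
    refine ⟨h1.1, h1.2.trans ?_⟩
    refine mul_le_mul_of_nonneg_right ?_ (apply_nonneg _ _)
    have := mul_le_mul_of_nonneg_right hc hε.le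
    linarith)
  exact ⟨I.toLinearMap ∘ₗ S, fun i => hS i⟩

/-- the first coordinate inclusion -/
private noncomputable def cptInl (M₁ M₂ : ℕ) : Eu M₁ →ₗ[ℝ] Eu (M₁ + M₂) where
  toFun w := WithLp.toLp 2 (fun j : Fin (M₁ + M₂) => Fin.addCases (motive := fun _ => ℝ) (fun i => w i) (fun _ => 0) j)
  map_add' v w := by
    ext j
    refine Fin.addCases (fun i => ?_) (fun i => ?_) j <;> simp
  map_smul' c w := by
    ext j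
    refine Fin.addCases (fun i => ?_) (fun i => ?_) j <;> simp

/-- the second coordinate inclusion -/
private noncomputable def cptInr (M₁ M₂ : ℕ) : Eu M₂ →ₗ[ℝ] Eu (M₁ + M₂) where
  toFun w := WithLp.toLp 2 (fun j : Fin (M₁ + M₂) => Fin.addCases (motive := fun _ => ℝ) (fun _ => 0) (fun i => w i) j)
  map_add' v w := by
    ext j
    refine Fin.addCases (fun i => ?_) (fun i => ?_) j <;> simp
  map_smul' c w := by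
    ext j
    refine Fin.addCases (fun i => ?_) (fun i => ?_) j <;> simp

/-- the first coordinate projection -/
private noncomputable def cptFst (M₁ M₂ : ℕ) : Eu (M₁ + M₂) →ₗ[ℝ] Eu M₁ where
  toFun w := WithLp.toLp 2 (fun i : Fin M₁ => w (Fin.castAdd M₂ i))
  map_add' v w := by ext j; simp
  map_smul' c w := by ext j; simp

/-- the second coordinate projection -/
private noncomputable def cptSnd (M₁ M₂ : ℕ) : Eu (M₁ + M₂) →ₗ[ℝ] Eu M₂ where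
  toFun w := WithLp.toLp 2 (fun i : Fin M₂ => w (Fin.natAdd M₁ i))
  map_add' v w := by ext j; simp
  map_smul' c w := by ext j; simp

theorem amalg {M₁ M₂ : ℕ} (𝒩₁ : Seminorm ℝ (Eu M₁)) (𝒩₂ : Seminorm ℝ (Eu M₂)) :
    ∃ (M : ℕ) (𝒩 : Seminorm ℝ (Eu M)) (I₁ : Eu M₁ →ₗᵢ[ℝ] Eu M) (I₂ : Eu M₂ →ₗᵢ[ℝ] Eu M),
      (∀ w, 𝒩 (I₁ w) = 𝒩₁ w) ∧ ∀ w, 𝒩 (I₂ w) = 𝒩₂ w := by
  refine ⟨M₁ + M₂, 𝒩₁.comp (cptFst M₁ M₂) + 𝒩₂.comp (cptSnd M₁ M₂), ⟨cptInl M₁ M₂, fun w => ?_⟩,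
    ⟨cptInr M₁ M₂, fun w => ?_⟩, fun w => ?_, fun w => ?_⟩
  · rw [EuclideanSpace.norm_eq, EuclideanSpace.norm_eq, Fin.sum_univ_add]
    simp [cptInl]
  · rw [EuclideanSpace.norm_eq, EuclideanSpace.norm_eq, Fin.sum_univ_add]
    simp [cptInr]
  · have h1 : cptFst M₁ M₂ (cptInl M₁ M₂ w) = w := by
      ext j
      simp [cptFst, cptInl]
    have h2 : cptSnd M₁ M₂ (cptInl M₁ M₂ w) = 0 := by
      ext j
      simp [cptSnd, cptInl]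
    show 𝒩₁ (cptFst M₁ M₂ (cptInl M₁ M₂ w)) + 𝒩₂ (cptSnd M₁ M₂ (cptInl M₁ M₂ w)) = 𝒩₁ w
    rw [h1, h2, map_zero, add_zero]
  · have h1 : cptSnd M₁ M₂ (cptInr M₁ M₂ w) = w := by
      ext j
      simp [cptSnd, cptInr]
    have h2 : cptFst M₁ M₂ (cptInr M₁ M₂ w) = 0 := by
      ext j
      simp [cptFst, cptInr]
    show 𝒩₁ (cptFst M₁ M₂ (cptInr M₁ M₂ w)) + 𝒩₂ (cptSnd M₁ M₂ (cptInr M₁ M₂ w)) = 𝒩₂ w
    rw [h1, h2, map_zero, zero_add]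

theorem cptP {n k : ℕ} {K : Set (Fin k → Eu n)} (hK : IsCompact K) (hKT : K ⊆ P23G.Tup n k) :
    ∃ (M : ℕ) (𝒩 : Seminorm ℝ (Eu M)) (c : ℝ), 0 < c ∧ ∀ z ∈ K, SolP 𝒩 c z := by
  refine hK.induction_on (p := fun s => ∃ (M : ℕ) (𝒩 : Seminorm ℝ (Eu M)) (c : ℝ), 0 < c ∧
    ∀ z ∈ s, SolP 𝒩 c z) ?_ ?_ ?_ ?_
  · exact ⟨0, 0, 1, one_pos, fun z hz => absurd hz (Set.notMem_empty z)⟩
  · rintro s t hst ⟨M, 𝒩, c, hc, h⟩
    exact ⟨M, 𝒩, c, hc, fun z hz => h z (hst hz)⟩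
  · rintro s t ⟨M₁, 𝒩₁, c₁, hc₁, h₁⟩ ⟨M₂, 𝒩₂, c₂, hc₂, h₂⟩
    obtain ⟨M, 𝒩, I₁, I₂, hI₁, hI₂⟩ := amalg 𝒩₁ 𝒩₂
    refine ⟨M, 𝒩, min c₁ c₂, lt_min hc₁ hc₂, ?_⟩
    rintro z (hz | hz)
    · exact SolP.mono I₁ hI₁ (min_le_left _ _) (h₁ z hz)
    · exact SolP.mono I₂ hI₂ (min_le_right _ _) (h₂ z hz)
  · intro z hz
    obtain ⟨M, 𝒩, c, hc, h⟩ := famP (hKT hz)
    refine ⟨Metric.ball z c, mem_nhdsWithin_of_mem_nhds (Metric.ball_mem_nhds z hc), M, 𝒩, c, hc, ?_⟩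
    intro z' hz'
    refine h z' fun i => ?_
    rw [← dist_eq_norm]
    exact lt_of_le_of_lt (dist_le_pi_dist z' z i) hz'

end P23H
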