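import Pool.Agent.Lib.P23G.Defs

/-!
# Generic norms (MP_23d34e), porosity: definitions

`gs 𝒩 ε` is the seminorm `√(‖w‖² + ε 𝒩(w)²)` on `ℝᴹ`. `SolP 𝒩 c z`: for all `ε` in `(0, 1]` every
seminorm `μ` with `gs 𝒩 ε ≤ μ ≤ (1 + c ε) gs 𝒩 ε` has a linear map `S : ℝⁿ → ℝᴹ` with
`μ (S (z i)) = ‖z i‖` for all `i`.
-/

set_option autoImplicit false

namespace P23H

/-- Euclidean space. -/
abbrev Eu (n : ℕ) := EuclideanSpace ℝ (Fin n)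

theorem sqrt_tri {a b a₁ b₁ a₂ b₂ : ℝ} (ha : 0 ≤ a) (hb : 0 ≤ b) (h1 : a ≤ a₁ + a₂)
    (h2 : b ≤ b₁ + b₂) :
    √(a ^ 2 + b ^ 2) ≤ √(a₁ ^ 2 + b₁ ^ 2) + √(a₂ ^ 2 + b₂ ^ 2) := by
  have e : ∀ s t : ℝ, √(s ^ 2 + t ^ 2) = ‖(⟨s, t⟩ : ℂ)‖ := by
    intro s t
    rw [Complex.norm_def, Complex.normSq_mk]
    congr 1
    ring
  have h3 : √(a ^ 2 + b ^ 2) ≤ √((a₁ + a₂) ^ 2 + (b₁ + b₂) ^ 2) := by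
    apply Real.sqrt_le_sqrt
    gcongr
  refine h3.trans ?_
  rw [e, e, e]
  have h4 : (⟨a₁ + a₂, b₁ + b₂⟩ : ℂ) = ⟨a₁, b₁⟩ + ⟨a₂, b₂⟩ := rfl
  rw [h4]
  exact norm_add_le _ _

/-- The seminorm `√(‖w‖² + ε 𝒩(w)²)`. -/
noncomputable def gs {M : ℕ} (𝒩 : Seminorm ℝ (Eu M)) (ε : ℝ) : Seminorm ℝ (Eu M) :=
  Seminorm.of (fun w => √(‖w‖ ^ 2 + (√ε * 𝒩 w) ^ 2))
    (fun x y => by
      refine sqrt_tri (norm_nonneg _) (by positivity) (norm_add_le x y) ?_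
      rw [← mul_add]
      exact mul_le_mul_of_nonneg_left (map_add_le_add 𝒩 x y) (Real.sqrt_nonneg _))
    (fun a x => by
      rw [norm_smul, map_smul_eq_mul]
      have h : (‖a‖ * ‖x‖) ^ 2 + (√ε * (‖a‖ * 𝒩 x)) ^ 2 =
          ‖a‖ ^ 2 * (‖x‖ ^ 2 + (√ε * 𝒩 x) ^ 2) := by ring
      rw [h, Real.sqrt_mul (by positivity), Real.sqrt_sq (norm_nonneg _)])

theorem gs_sq {M : ℕ} (𝒩 : Seminorm ℝ (Eu M)) {ε : ℝ} (hε : 0 ≤ ε) (w : Eu M) :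
    gs 𝒩 ε w ^ 2 = ‖w‖ ^ 2 + ε * 𝒩 w ^ 2 := by
  show √(‖w‖ ^ 2 + (√ε * 𝒩 w) ^ 2) ^ 2 = _
  rw [Real.sq_sqrt (by positivity), mul_pow, Real.sq_sqrt hε]

/-- Solvability near the seminorms `gs 𝒩 ε`, with a margin linear in `ε`. -/
def SolP {M : ℕ} (𝒩 : Seminorm ℝ (Eu M)) (c : ℝ) {n k : ℕ} (z : Fin k → Eu n) : Prop :=
  ∀ ε : ℝ, 0 < ε → ε ≤ 1 → ∀ μ : Seminorm ℝ (Eu M),
    (∀ w, gs 𝒩 ε w ≤ μ w ∧ μ w ≤ (1 + c * ε) * gs 𝒩 ε w) →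
    ∃ S : Eu n →ₗ[ℝ] Eu M, ∀ i, μ (S (z i)) = ‖z i‖

end P23H
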