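import Pool.Agent.Lib.P23H.Defs
import Pool.Agent.Lib.P23G.Fam
import Pool.Agent.Lib.P23G.YSp

/-!
# Module P23H.FamU: a family of Euclidean isometries along which a seminorm is flexible

PROOF. Let `Y` be the plane of `P23G.ysp` (`η = 1`, not Hilbert) and `D` the image of
`z` (`z` is injective). `P23G.exists_family` gives `N`, `r` and `T u : ℝⁿ → ℓ₂^N(Y)` with
`‖T u d‖² = ‖d‖² + u d` for `d ∈ D`, `‖u‖ ≤ r`, continuous in `u`. Let `|·|` be the Euclidean norm on the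
same vector space (`φ` of `ysp`) and `Q u v = |T u v|²`, a quadratic form in `v` with matrix
`q u i j = ⟨T u e_i, T u e_j⟩`, so `|q u i j| ≤ t` for all `‖u‖ ≤ r` and some `t`. Put
`L u v = (√((t - q u i j)/4) (v i + v j), √((t + q u i j)/4) (v i - v j))` for `(i, j) : Fin n × Fin n`;
then `‖L u v‖² = ∑_{i,j} (t/2 (v i² + v j²) - q u i j v i v j) = t n ‖v‖² - Q u v`. So
`v ↦ (T u v, L u v, v)` has Euclidean norm `√(t n + 1) ‖v‖`. Divide by `√κ₀`, `κ₀ = t n + 1`, and let `𝒩` be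
the seminorm `‖first component‖` of `ℓ₂^N(Y)` (zero on the rest). `κ = 1 / κ₀`.
-/

set_option autoImplicit false

open Metric

namespace P23H

namespace FamUAux

/-- index set of the completed maps -/
abbrev Ix (d n : ℕ) := Fin d ⊕ ((Fin n × Fin n) ⊕ ((Fin n × Fin n) ⊕ Fin n))

variable {n d : ℕ}

/-- coordinate functional -/
noncomputable def pr (i : Fin n) : Eu n →ₗ[ℝ] ℝ :=
  (EuclideanSpace.proj i : Eu n →L[ℝ] ℝ).toLinearMap

theorem pr_apply (i : Fin n) (v : Eu n) : pr i v = v i := rfl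

/-- Gram matrix -/
noncomputable def gq (A : Eu n →ₗ[ℝ] Eu d) (i j : Fin n) : ℝ :=
  inner ℝ (A (EuclideanSpace.single i 1)) (A (EuclideanSpace.single j 1))

/-- coordinates of the completed map -/
noncomputable def co (t : ℝ) (A : Eu n →ₗ[ℝ] Eu d) : Ix d n → (Eu n →ₗ[ℝ] ℝ)
  | Sum.inl i => pr i ∘ₗ A
  | Sum.inr (Sum.inl p) => √((t - gq A p.1 p.2) / 4) • (pr p.1 + pr p.2)
  | Sum.inr (Sum.inr (Sum.inl p)) => √((t + gq A p.1 p.2) / 4) • (pr p.1 - pr p.2)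
  | Sum.inr (Sum.inr (Sum.inr i)) => pr i

/-- the completed map -/
noncomputable def F (t : ℝ) (A : Eu n →ₗ[ℝ] Eu d) : Eu n →ₗ[ℝ] EuclideanSpace ℝ (Ix d n) :=
  ((WithLp.linearEquiv 2 ℝ (Ix d n → ℝ)).symm : (Ix d n → ℝ) →ₗ[ℝ] EuclideanSpace ℝ (Ix d n)) ∘ₗ
    LinearMap.pi (co t A)

theorem F_apply (t : ℝ) (A : Eu n →ₗ[ℝ] Eu d) (v : Eu n) (a : Ix d n) :
    F t A v a = co t A a v := rfl

theorem norm_A_sq (A : Eu n →ₗ[ℝ] Eu d) (v : Eu n) :
    ‖A v‖ ^ 2 = ∑ i, ∑ j, gq A i j * v i * v j := by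
  have h1 : A v = ∑ i, v i • A (EuclideanSpace.single i 1) := by
    conv_lhs => rw [← (EuclideanSpace.basisFun (Fin n) ℝ).sum_repr v]
    rw [map_sum]
    simp
  rw [← real_inner_self_eq_norm_sq, h1, sum_inner]
  refine Finset.sum_congr rfl fun i _ => ?_
  rw [inner_sum]
  refine Finset.sum_congr rfl fun j _ => ?_
  rw [real_inner_smul_left, real_inner_smul_right]
  unfold gq
  ring

theorem F_norm (t : ℝ) (A : Eu n →ₗ[ℝ] Eu d) (h : ∀ i j, |gq A i j| ≤ t) (v : Eu n) :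
    ‖F t A v‖ ^ 2 = (t * n + 1) * ‖v‖ ^ 2 := by
  rw [EuclideanSpace.real_norm_sq_eq (F t A v)]
  rw [Fintype.sum_sum_type, Fintype.sum_sum_type, Fintype.sum_sum_type]
  have e1 : ∑ i : Fin d, (F t A v (Sum.inl i)) ^ 2 = ∑ i, ∑ j, gq A i j * v i * v j := by
    rw [← norm_A_sq, EuclideanSpace.real_norm_sq_eq]
    rfl
  have e2 : ∑ p : Fin n × Fin n, (F t A v (Sum.inr (Sum.inl p))) ^ 2 =
      ∑ i, ∑ j, (t - gq A i j) / 4 * (v i + v j) ^ 2 := by
    rw [Fintype.sum_prod_type]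
    refine Finset.sum_congr rfl fun i _ => Finset.sum_congr rfl fun j _ => ?_
    have h1 : F t A v (Sum.inr (Sum.inl (i, j))) = √((t - gq A i j) / 4) * (v i + v j) := rfl
    rw [h1, mul_pow, Real.sq_sqrt]
    have := (abs_le.1 (h i j)).2
    linarith
  have e3 : ∑ p : Fin n × Fin n, (F t A v (Sum.inr (Sum.inr (Sum.inl p)))) ^ 2 =
      ∑ i, ∑ j, (t + gq A i j) / 4 * (v i - v j) ^ 2 := by
    rw [Fintype.sum_prod_type]
    refine Finset.sum_congr rfl fun i _ => Finset.sum_congr rfl fun j _ => ?_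
    have h1 : F t A v (Sum.inr (Sum.inr (Sum.inl (i, j)))) =
      √((t + gq A i j) / 4) * (v i - v j) := rfl
    rw [h1, mul_pow, Real.sq_sqrt]
    have := (abs_le.1 (h i j)).1
    linarith
  have e4 : ∑ i : Fin n, (F t A v (Sum.inr (Sum.inr (Sum.inr i)))) ^ 2 = ‖v‖ ^ 2 := by
    rw [EuclideanSpace.real_norm_sq_eq]
    rfl
  rw [e1, e2, e3, e4]
  have e5 : ∑ i, ∑ j, gq A i j * v i * v j + (∑ i, ∑ j, (t - gq A i j) / 4 * (v i + v j) ^ 2 +
      (∑ i, ∑ j, (t + gq A i j) / 4 * (v i - v j) ^ 2 + ‖v‖ ^ 2)) =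
      (∑ i, ∑ j, (t / 2 * v i ^ 2 + t / 2 * v j ^ 2)) + ‖v‖ ^ 2 := by
    rw [← add_assoc, ← add_assoc, ← Finset.sum_add_distrib, ← Finset.sum_add_distrib]
    congr 1
    refine Finset.sum_congr rfl fun i _ => ?_
    rw [← Finset.sum_add_distrib, ← Finset.sum_add_distrib]
    refine Finset.sum_congr rfl fun j _ => ?_
    ring
  rw [e5]
  have e6 : ∑ i : Fin n, ∑ j : Fin n, (t / 2 * v i ^ 2 + t / 2 * v j ^ 2) = t * n * ‖v‖ ^ 2 := by
    rw [EuclideanSpace.real_norm_sq_eq v]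
    have h1 : ∀ i : Fin n, ∑ j : Fin n, (t / 2 * v i ^ 2 + t / 2 * v j ^ 2) =
        n * (t / 2 * v i ^ 2) + t / 2 * ∑ j, v j ^ 2 := by
      intro i
      rw [Finset.sum_add_distrib, Finset.sum_const, Finset.card_univ, Fintype.card_fin,
        nsmul_eq_mul, ← Finset.mul_sum]
    rw [Finset.sum_congr rfl fun i _ => h1 i, Finset.sum_add_distrib, Finset.sum_const,
      Finset.card_univ, Fintype.card_fin, nsmul_eq_mul, ← Finset.mul_sum, ← Finset.mul_sum]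
    ring
  rw [e6]
  ring

/-- the projection to the first block -/
noncomputable def P (d n : ℕ) : EuclideanSpace ℝ (Ix d n) →ₗ[ℝ] Eu d :=
  ((WithLp.linearEquiv 2 ℝ (Fin d → ℝ)).symm : (Fin d → ℝ) →ₗ[ℝ] Eu d) ∘ₗ
    LinearMap.pi fun i : Fin d =>
      (EuclideanSpace.proj (Sum.inl i : Ix d n) : EuclideanSpace ℝ (Ix d n) →L[ℝ] ℝ).toLinearMap

theorem P_F (t : ℝ) (A : Eu n →ₗ[ℝ] Eu d) (v : Eu n) : P d n (F t A v) = A v := by
  ext i
  rfl

theorem gq_cont {V : Type*} [TopologicalSpace V] {K : Set V} {A : V → Eu n →ₗ[ℝ] Eu d}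
    (hA : ∀ v, ContinuousOn (fun u => A u v) K) (i j : Fin n) :
    ContinuousOn (fun u => gq (A u) i j) K :=
  (hA _).inner (hA _)

theorem F_cont {V : Type*} [TopologicalSpace V] {K : Set V} {A : V → Eu n →ₗ[ℝ] Eu d}
    (hA : ∀ v, ContinuousOn (fun u => A u v) K) (t : ℝ) (v : Eu n) :
    ContinuousOn (fun u => F t (A u) v) K := by
  have h1 : (fun u => F t (A u) v) = fun u => WithLp.toLp 2 fun a => co t (A u) a v := rfl
  rw [h1]
  apply (PiLp.continuous_toLp 2 _).comp_continuousOn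
  apply continuousOn_pi.2
  rintro (i | p | p | i)
  · exact (EuclideanSpace.proj i : Eu d →L[ℝ] ℝ).continuous.comp_continuousOn (hA v)
  · have h2 : ContinuousOn (fun u => √((t - gq (A u) p.1 p.2) / 4) * (v p.1 + v p.2)) K :=
      (((continuousOn_const.sub (gq_cont hA p.1 p.2)).div_const 4).sqrt).mul continuousOn_const
    exact h2
  · have h2 : ContinuousOn (fun u => √((t + gq (A u) p.1 p.2) / 4) * (v p.1 - v p.2)) K :=
      (((continuousOn_const.add (gq_cont hA p.1 p.2)).div_const 4).sqrt).mul continuousOn_const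
    exact h2
  · exact continuousOn_const

end FamUAux

open FamUAux

theorem famU {n k : ℕ} {z : Fin k → Eu n} (hz : z ∈ P23G.Tup n k) :
    ∃ (M : ℕ) (𝒩 : Seminorm ℝ (Eu M)) (κ r : ℝ) (U : EuclideanSpace ℝ (Fin k) → Eu n →ₗ[ℝ] Eu M),
      0 < κ ∧ 0 < r ∧ (∀ v, ContinuousOn (fun u => U u v) (closedBall 0 r)) ∧
      (∀ u ∈ closedBall (0 : EuclideanSpace ℝ (Fin k)) r, ∀ v, ‖U u v‖ = ‖v‖) ∧
      ∀ u ∈ closedBall (0 : EuclideanSpace ℝ (Fin k)) r, ∀ i,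
        𝒩 (U u (z i)) ^ 2 = κ * (‖z i‖ ^ 2 + u i) := by
  classical
  obtain ⟨hz0, hzc⟩ := hz
  have hinj : Function.Injective z := by
    intro i j hij
    by_contra hne
    exact hzc i j hne 1 (by rw [one_smul, hij])
  let D : Finset (Eu n) := Finset.univ.image z
  have hDm : ∀ i, z i ∈ D := fun i => Finset.mem_image_of_mem z (Finset.mem_univ i)
  have h0 : ∀ v ∈ D, v ≠ 0 := by
    intro v hv
    obtain ⟨i, _, rfl⟩ := Finset.mem_image.1 hv
    exact hz0 i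
  have hD : ∀ v ∈ D, ∀ w ∈ D, v ≠ w → ∀ c : ℝ, v ≠ c • w := by
    intro v hv w hw hvw
    obtain ⟨i, _, rfl⟩ := Finset.mem_image.1 hv
    obtain ⟨j, _, rfl⟩ := Finset.mem_image.1 hw
    exact hzc i j fun h => hvw (by rw [h])
  obtain ⟨Y, _, _, hY, hYφ⟩ := P23G.ysp (η := 1) one_pos
  obtain ⟨N, r, T, hr, hT, hTn⟩ := P23G.exists_family hY h0 hD
  obtain ⟨d, φ, hφ⟩ := hYφ N
  have hφc : Continuous φ :=
    AddMonoidHomClass.continuous_of_bound φ 1 fun w => by rw [one_mul]; exact (hφ w).1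
  -- the parameters
  let e : Fin k ≃ D := Equiv.ofBijective (fun i => (⟨z i, hDm i⟩ : D))
    ⟨fun i j hij => hinj (congrArg Subtype.val hij), fun x => by
      obtain ⟨i, _, hi⟩ := Finset.mem_image.1 x.2
      exact ⟨i, Subtype.ext hi⟩⟩
  let ψ : EuclideanSpace ℝ (Fin k) ≃ₗᵢ[ℝ] EuclideanSpace ℝ D :=
    LinearIsometryEquiv.piLpCongrLeft 2 ℝ ℝ e
  have hψ : ∀ u i, ψ u ⟨z i, hDm i⟩ = u i := by
    intro u i
    have h1 : (⟨z i, hDm i⟩ : D) = e i := rfl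
    rw [h1]
    show u (e.symm (e i)) = u i
    rw [Equiv.symm_apply_apply]
  have hψb : ∀ u ∈ closedBall (0 : EuclideanSpace ℝ (Fin k)) r,
      ψ u ∈ closedBall (0 : EuclideanSpace ℝ D) r := by
    intro u hu
    rw [mem_closedBall_zero_iff] at hu ⊢
    rwa [ψ.norm_map]
  let A : EuclideanSpace ℝ (Fin k) → Eu n →ₗ[ℝ] Eu d := fun u => φ.toLinearMap ∘ₗ T (ψ u)
  have hA : ∀ v, ContinuousOn (fun u => A u v) (closedBall 0 r) := by
    intro v
    have h1 : ContinuousOn (fun u => T (ψ u) v) (closedBall 0 r) :=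
      (hT v).comp ψ.continuous.continuousOn hψb
    exact hφc.comp_continuousOn h1
  obtain ⟨C, hC0, hC⟩ := P23G.bound_of_cont
    (isCompact_closedBall (0 : EuclideanSpace ℝ (Fin k)) r) A hA
  have hq : ∀ u ∈ closedBall (0 : EuclideanSpace ℝ (Fin k)) r, ∀ i j,
      |gq (A u) i j| ≤ C * C := by
    intro u hu i j
    unfold gq
    refine (abs_real_inner_le_norm _ _).trans ?_
    have h1 : ∀ i : Fin n, ‖A u (EuclideanSpace.single i 1)‖ ≤ C := by
      intro i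
      have := hC u hu (EuclideanSpace.single i 1)
      simpa using this
    exact mul_le_mul (h1 i) (h1 j) (norm_nonneg _) hC0
  obtain ⟨κ₀, hκ⟩ : ∃ κ₀ : ℝ, κ₀ = C * C * n + 1 := ⟨_, rfl⟩
  have hκ0 : 0 < κ₀ := by
    rw [hκ]
    positivity
  let ε : EuclideanSpace ℝ (Ix d n) ≃ₗᵢ[ℝ] Eu (Fintype.card (Ix d n)) :=
    LinearIsometryEquiv.piLpCongrLeft 2 ℝ ℝ (Fintype.equivFin (Ix d n))
  let U : EuclideanSpace ℝ (Fin k) → Eu n →ₗ[ℝ] Eu (Fintype.card (Ix d n)) := fun u =>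
    (√κ₀)⁻¹ • (ε.toLinearEquiv.toLinearMap ∘ₗ F (C * C) (A u))
  have hU : ∀ u v, U u v = (√κ₀)⁻¹ • ε (F (C * C) (A u) v) := fun u v => rfl
  let 𝒩 : Seminorm ℝ (Eu (Fintype.card (Ix d n))) :=
    (normSeminorm ℝ (PiLp 2 (fun _ : Fin N => Y))).comp
      (φ.symm.toLinearMap ∘ₗ P d n ∘ₗ ε.symm.toLinearEquiv.toLinearMap)
  have h𝒩 : ∀ w, 𝒩 w = ‖φ.symm (P d n (ε.symm w))‖ := fun w => rfl
  have hs : 0 < √κ₀ := Real.sqrt_pos.2 hκ0
  refine ⟨_, 𝒩, κ₀⁻¹, r, U, inv_pos.2 hκ0, hr, ?_, ?_, ?_⟩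
  · intro v
    have h1 : ContinuousOn (fun u => ε (F (C * C) (A u) v)) (closedBall 0 r) :=
      ε.continuous.comp_continuousOn (F_cont hA _ v)
    exact h1.const_smul _
  · intro u hu v
    rw [hU, norm_smul, ε.norm_map, norm_inv, Real.norm_of_nonneg hs.le]
    have h1 := F_norm (C * C) (A u) (hq u hu) v
    rw [← hκ] at h1
    have h2 : ‖F (C * C) (A u) v‖ = √κ₀ * ‖v‖ := by
      have h3 : (√κ₀ * ‖v‖) ^ 2 = κ₀ * ‖v‖ ^ 2 := by
        rw [mul_pow, Real.sq_sqrt hκ0.le]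
      rw [← h3] at h1
      exact (pow_left_inj₀ (norm_nonneg _) (by positivity) two_ne_zero).1 h1
    rw [h2, ← mul_assoc, inv_mul_cancel₀ hs.ne', one_mul]
  · intro u hu i
    have h1 : φ.symm (P d n (ε.symm (U u (z i)))) = (√κ₀)⁻¹ • T (ψ u) (z i) := by
      rw [hU, map_smul, ε.symm_apply_apply, map_smul, P_F, map_smul]
      congr 1
      exact φ.symm_apply_apply _
    rw [h𝒩, h1, norm_smul, mul_pow, norm_inv, Real.norm_of_nonneg hs.le, inv_pow,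
      Real.sq_sqrt hκ0.le]
    congr 1
    have h2 := hTn (ψ u) (hψb u hu) ⟨z i, hDm i⟩
    rw [hψ] at h2
    exact h2

end P23H
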