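import Pool.Agent.Lib.P23H.Defs
import Pool.Agent.Lib.P23G.Renorm

/-!
# Module P23H.RenP: renorming with a prescribed seminorm on a Euclidean space

PROOF. As `P23G.renorm` (inf-convolution), with the seminorm `g` on `Eu d` in place of the norm of `W`; or apply
`P23G.renorm` to a copy of `Eu d` with the norm `g` (`g w = 0 → w = 0`). `exists_bound`: seminorms on
finite-dimensional Euclidean spaces are bounded by a multiple of the norm.
-/

set_option autoImplicit false

namespace P23H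

theorem exists_bound {M : ℕ} (𝒩 : Seminorm ℝ (Eu M)) : ∃ C : ℝ, 0 < C ∧ ∀ w, 𝒩 w ≤ C * ‖w‖ := by
  set b := EuclideanSpace.basisFun (Fin M) ℝ with hb
  have h0 : 0 ≤ ∑ i, 𝒩 (b i) := Finset.sum_nonneg fun i _ => apply_nonneg 𝒩 _
  refine ⟨∑ i, 𝒩 (b i) + 1, by linarith, fun w => ?_⟩
  have h1 : 𝒩 (∑ i, b.repr w i • b i) ≤ ∑ i, 𝒩 (b.repr w i • b i) :=
    Finset.le_sum_of_subadditive 𝒩 (map_zero 𝒩).le (map_add_le_add 𝒩) _ _
  rw [b.sum_repr w] at h1
  have h2 : ∑ i, 𝒩 (b.repr w i • b i) ≤ ∑ i, ‖w‖ * 𝒩 (b i) := by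
    refine Finset.sum_le_sum fun i _ => ?_
    rw [map_smul_eq_mul]
    have h3 : ‖b.repr w i‖ ≤ ‖w‖ := by
      have := PiLp.norm_apply_le (b.repr w) i
      rwa [b.repr.norm_map] at this
    exact mul_le_mul_of_nonneg_right h3 (apply_nonneg 𝒩 _)
  rw [← Finset.mul_sum] at h2
  have h4 := norm_nonneg w
  nlinarith [h1, h2, h4]

/-- The inf-convolution seminorm, with a seminorm on the source space. -/
theorem renormP_aux {X : Type*} [AddCommGroup X] [Module ℝ X]
    (ν : Seminorm ℝ X) {W : Type*} [AddCommGroup W] [Module ℝ W] {η : ℝ} (hη : 0 < η)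
    (q : Seminorm ℝ W) (J : W →ₗ[ℝ] X)
    (hJ1 : ∀ w, q w ≤ (1 + η) * ν (J w)) (hJ2 : ∀ w, ν (J w) ≤ (1 + η) * q w) :
    ∃ ν' : Seminorm ℝ X,
      (∀ x, ν x ≤ (1 + η) * ν' x ∧ ν' x ≤ (1 + η) * ν x) ∧ ∀ w, ν' (J w) = q w := by
  set g : X → W → ℝ := fun x w => (1 + η) * ν (x - J w) + q w with hg
  have h1 : 0 ≤ 1 + η := by linarith
  have g0 : ∀ x w, 0 ≤ g x w := fun x w =>
    add_nonneg (mul_nonneg h1 (apply_nonneg ν _)) (apply_nonneg q w)
  have bdd : ∀ x, BddBelow (Set.range (g x)) := fun x => ⟨0, by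
    rintro _ ⟨w, rfl⟩
    exact g0 x w⟩
  set f : X → ℝ := fun x => ⨅ w : W, g x w with hf
  have fle : ∀ x w, f x ≤ g x w := fun x w => ciInf_le (bdd x) w
  have f0 : f 0 = 0 := by
    apply le_antisymm
    · have := fle 0 0
      simpa [hg] using this
    · exact le_ciInf fun w => g0 0 w
  have fadd : ∀ x y, f (x + y) ≤ f x + f y := by
    intro x y
    refine le_ciInf_add_ciInf fun w w' => ?_
    refine (fle (x + y) (w + w')).trans ?_
    simp only [hg]
    have e : x + y - J (w + w') = (x - J w) + (y - J w') := by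
      rw [map_add]; abel
    rw [e]
    have h2 := map_add_le_add ν (x - J w) (y - J w')
    have h3 := map_add_le_add q w w'
    have h4 := mul_le_mul_of_nonneg_left h2 h1
    linarith
  have fsmul : ∀ (r : ℝ) (x : X), f (r • x) ≤ ‖r‖ * f x := by
    intro r x
    simp only [hf]
    rw [Real.mul_iInf_of_nonneg (norm_nonneg r)]
    refine le_ciInf fun w => ?_
    refine (fle (r • x) (r • w)).trans (le_of_eq ?_)
    simp only [hg]
    have e : r • x - J (r • w) = r • (x - J w) := by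
      rw [map_smul, smul_sub]
    rw [e, map_smul_eq_mul, map_smul_eq_mul]
    ring
  refine ⟨Seminorm.ofSMulLE f f0 fadd fsmul, ?_, ?_⟩
  · intro x
    constructor
    · show ν x ≤ (1 + η) * f x
      simp only [hf]
      rw [Real.mul_iInf_of_nonneg h1]
      refine le_ciInf fun w => ?_
      simp only [hg]
      have h2 : ν x ≤ ν (x - J w) + ν (J w) := by
        have := map_add_le_add ν (x - J w) (J w)
        rwa [sub_add_cancel] at this
      have h3 := hJ2 w
      have h4 : 0 ≤ ν (x - J w) := apply_nonneg ν _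
      nlinarith [mul_nonneg hη.le h4, mul_nonneg (mul_nonneg hη.le hη.le) h4]
    · show f x ≤ (1 + η) * ν x
      have := fle x 0
      simpa [hg] using this
  · intro w0
    show f (J w0) = q w0
    apply le_antisymm
    · have := fle (J w0) w0
      simpa [hg] using this
    · refine le_ciInf fun w => ?_
      simp only [hg]
      have h2 := hJ1 (w0 - w)
      rw [map_sub J] at h2
      have h3 : q w0 ≤ q (w0 - w) + q w := by
        have := map_add_le_add q (w0 - w) w
        rwa [sub_add_cancel] at this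
      linarith

theorem renormP {X : Type*} [AddCommGroup X] [Module ℝ X] (hX : ¬ FiniteDimensional ℝ X)
    (ν : Seminorm ℝ X) (hν : ∀ x, ν x = 0 → x = 0) {d : ℕ} {η : ℝ} (hη : 0 < η)
    (g : Seminorm ℝ (Eu d)) (hg : ∀ w, ‖w‖ ≤ g w ∧ g w ≤ (1 + η) * ‖w‖) :
    ∃ (ν' : Seminorm ℝ X) (J : Eu d →ₗ[ℝ] X),
      (∀ x, ν x ≤ (1 + η) * ν' x ∧ ν' x ≤ (1 + η) * ν x) ∧ ∀ w, ν' (J w) = g w := by
  obtain ⟨T, hT⟩ := P23G.dvor hX ν hν d hη
  have h1 : (0 : ℝ) ≤ 1 + η := by linarith
  obtain ⟨ν', h2, h3⟩ := renormP_aux ν hη g T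
    (fun w => (hg w).2.trans (mul_le_mul_of_nonneg_left (hT w).1 h1))
    (fun w => ((hT w).2).trans (mul_le_mul_of_nonneg_left (hg w).1 h1))
  exact ⟨ν', T, h2, h3⟩

end P23H
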