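import Pool.Agent.Lib.P23H.CptP
import Pool.Agent.Lib.P23H.RenP
import Pool.Agent.Lib.P23G.Final

/-!
# Generic norms: the exceptional norms form a countable union of closed porous sets
-/

set_option autoImplicit false

open Filter Topology Set Metric
open scoped InnerProductSpace RealInnerProductSpace

universe u

/-- A subset of a metric space is porous: there is a constant `c > 0` such that every ball of radius
`ε ≤ 1` contains the centre of a ball of radius `c ε` that is disjoint from the set. -/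
def P23H.Porous {M : Type*} [MetricSpace M] (P : Set M) : Prop :=
  ∃ c : ℝ, 0 < c ∧ ∀ (x : M) (ε : ℝ), 0 < ε → ε ≤ 1 →
    ∃ y : M, dist y x < ε ∧ ∀ w : M, dist w y < c * ε → w ∉ P

namespace P23H

open P23G

theorem sol_nearP {X : Type*} [NormedAddCommGroup X] [NormedSpace ℝ X] {M : ℕ}
    {𝒩 : Seminorm ℝ (Eu M)} {c ε r : ℝ} (hε : 0 < ε) (hε1 : ε ≤ 1)
    (hr2 : Real.exp (2 * r) ≤ 1 + c * ε) (ν₁ ν : EqNorm X) (hd : dist ν ν₁ ≤ r)
    (J : Eu M →ₗ[ℝ] X) (hJ : ∀ w, ν₁.nrm (J w) = gs 𝒩 ε w) {n k : ℕ} {z : Fin k → Eu n}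
    (hz : SolP 𝒩 c z) : SolX ν z := by
  let e : NNReal := ⟨Real.exp r, (Real.exp_pos r).le⟩
  let μ : Seminorm ℝ (Eu M) := e • (ν.nrm.comp J)
  have hμ : ∀ w, μ w = Real.exp r * ν.nrm (J w) := fun w => rfl
  obtain ⟨S, hS⟩ := hz ε hε hε1 μ (fun w => by
    rw [hμ]
    have h1 := ν₁.le_exp_mul ν (r := r) (by rwa [dist_comm]) (J w)
    have h2 := ν.le_exp_mul ν₁ hd (J w)
    rw [hJ] at h1 h2
    refine ⟨h1, ?_⟩
    have h3 : 0 ≤ gs 𝒩 ε w := apply_nonneg _ _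
    calc Real.exp r * ν.nrm (J w) ≤ Real.exp r * (Real.exp r * gs 𝒩 ε w) := by gcongr
      _ = Real.exp (2 * r) * gs 𝒩 ε w := by rw [two_mul, Real.exp_add]; ring
      _ ≤ (1 + c * ε) * gs 𝒩 ε w := by gcongr)
  refine ⟨Real.exp r • (J ∘ₗ S), fun i => ?_⟩
  rw [← hS i, hμ, LinearMap.smul_apply, map_smul_eq_mul, Real.norm_eq_abs,
    abs_of_pos (Real.exp_pos r)]
  rfl

theorem porousP {n k : ℕ} {K : Set (Fin k → Eu n)} (hK : IsCompact K) (hKT : K ⊆ Tup n k) :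
    ∃ c : ℝ, 0 < c ∧ ∀ (X : Type u) [NormedAddCommGroup X] [NormedSpace ℝ X],
      ¬ FiniteDimensional ℝ X → ∀ (ν₀ : EqNorm X) (ε : ℝ), 0 < ε → ε ≤ 1 →
        ∃ ν₁ : EqNorm X, dist ν₁ ν₀ < ε ∧ ∀ ν : EqNorm X, dist ν ν₁ < c * ε →
          ∀ z ∈ K, SolX ν z := by
  obtain ⟨M, 𝒩, c₀, hc₀, hsol⟩ := cptP hK hKT
  obtain ⟨C, hC, hbd⟩ := exists_bound 𝒩
  obtain ⟨a, ha0, ha1, haC⟩ : ∃ a : ℝ, 0 < a ∧ a ≤ 1 ∧ a * C ^ 2 ≤ 1 := by
    refine ⟨min 1 (1 / C ^ 2), by positivity, min_le_left _ _, ?_⟩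
    calc min 1 (1 / C ^ 2) * C ^ 2 ≤ 1 / C ^ 2 * C ^ 2 := by
          gcongr
          exact min_le_right _ _
      _ = 1 := by field_simp
  refine ⟨c₀ * a / (2 * (1 + c₀ * a)), by positivity, ?_⟩
  intro X _ _ hX ν₀ ε hε hε1
  have hη : 0 < Real.exp (ε / 2) - 1 := by
    have := Real.add_one_lt_exp (x := ε / 2) (by positivity)
    linarith
  have hε' : 0 < a * ε := by positivity
  have hε'1 : a * ε ≤ 1 := by nlinarith
  have he : 1 + (Real.exp (ε / 2) - 1) = Real.exp (ε / 2) := by ring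
  obtain ⟨ν', J, h1, h2⟩ := renormP hX ν₀.nrm (fun x hx => ν₀.eq_zero hx) hη (gs 𝒩 (a * ε))
    (fun w => by
      have hsq := gs_sq 𝒩 hε'.le w
      have hg0 : 0 ≤ gs 𝒩 (a * ε) w := apply_nonneg _ _
      have hn0 : 0 ≤ 𝒩 w := apply_nonneg _ _
      constructor
      · apply le_of_sq_le_sq _ hg0
        rw [hsq]
        have : 0 ≤ a * ε * 𝒩 w ^ 2 := by positivity
        linarith
      · rw [he]
        apply le_of_sq_le_sq _ (by positivity)
        rw [hsq, mul_pow, ← Real.exp_nat_mul]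
        have h3 : 𝒩 w ^ 2 ≤ (C * ‖w‖) ^ 2 := by
          have := hbd w
          gcongr
        have h4 : a * ε * 𝒩 w ^ 2 ≤ ε * ‖w‖ ^ 2 := by
          calc a * ε * 𝒩 w ^ 2 ≤ a * ε * (C * ‖w‖) ^ 2 := by gcongr
            _ = (a * C ^ 2) * (ε * ‖w‖ ^ 2) := by ring
            _ ≤ 1 * (ε * ‖w‖ ^ 2) := by gcongr
            _ = ε * ‖w‖ ^ 2 := one_mul _
        have h5 : 1 + ε ≤ Real.exp (((2 : ℕ) : ℝ) * (ε / 2)) := by
          have h6 : ((2 : ℕ) : ℝ) * (ε / 2) = ε := by push_cast; ring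
          rw [h6]
          have := Real.add_one_le_exp ε
          linarith
        calc ‖w‖ ^ 2 + a * ε * 𝒩 w ^ 2 ≤ (1 + ε) * ‖w‖ ^ 2 := by linarith
          _ ≤ Real.exp (((2 : ℕ) : ℝ) * (ε / 2)) * ‖w‖ ^ 2 := by gcongr)
  rw [he] at h1
  let ν₁ : EqNorm X := ⟨ν', by
    obtain ⟨c, C, hc, h⟩ := ν₀.bd
    refine ⟨(Real.exp (ε / 2))⁻¹ * c, Real.exp (ε / 2) * C, by positivity, fun x => ⟨?_, ?_⟩⟩
    · rw [mul_assoc, inv_mul_le_iff₀ (Real.exp_pos _)]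
      exact (h x).1.trans (h1 x).1
    · refine (h1 x).2.trans ?_
      rw [mul_assoc]
      exact mul_le_mul_of_nonneg_left (h x).2 (Real.exp_pos _).le⟩
  have hd : dist ν₁ ν₀ ≤ ε / 2 :=
    EqNorm.dist_le _ _ (by positivity) fun x => ⟨(h1 x).2, (h1 x).1⟩
  refine ⟨ν₁, by linarith, fun ν hν z hz => ?_⟩
  refine sol_nearP (ε := a * ε) hε' hε'1 ?_ ν₁ ν hν.le J h2 (hsol z hz)
  have hy : 0 < c₀ * (a * ε) := by positivity
  have h3 := Real.one_sub_inv_le_log_of_pos (x := 1 + c₀ * (a * ε)) (by linarith)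
  have h4 : 2 * (c₀ * a / (2 * (1 + c₀ * a)) * ε) ≤ 1 - (1 + c₀ * (a * ε))⁻¹ := by
    have e1 : 1 - (1 + c₀ * (a * ε))⁻¹ = c₀ * (a * ε) / (1 + c₀ * (a * ε)) := by
      field_simp
      ring
    have e2 : 2 * (c₀ * a / (2 * (1 + c₀ * a)) * ε) = c₀ * (a * ε) / (1 + c₀ * a) := by
      field_simp
    rw [e1, e2]
    apply div_le_div_of_nonneg_left hy.le (by positivity)
    have : c₀ * (a * ε) ≤ c₀ * a := by
      rw [← mul_assoc]
      exact mul_le_of_le_one_right (by positivity) hε1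
    linarith
  rw [← Real.exp_log (show 0 < 1 + c₀ * (a * ε) by linarith)]
  exact Real.exp_le_exp.2 (h4.trans h3)

/-- a linear map with prescribed norms on a finite set of vectors, from one tuple -/
theorem exists_tupP {n : ℕ} {V : Set (EuclideanSpace ℝ (Fin n))} (hV : V.Finite) :
    ∃ (k : ℕ) (z : Fin k → EuclideanSpace ℝ (Fin n)), z ∈ Tup n k ∧
      ∀ (X : Type u) [NormedAddCommGroup X] [NormedSpace ℝ X] (ν : EqNorm X), SolX ν z →
      ∃ S : EuclideanSpace ℝ (Fin n) →ₗ[ℝ] X, ∀ v ∈ V, ν.nrm (S v) = ‖v‖ := by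
  classical
  let rep : EuclideanSpace ℝ (Fin n) → EuclideanSpace ℝ (Fin n) := fun v =>
    if h : v = 0 then 0 else (Projectivization.mk ℝ v h).rep
  let D : Finset (EuclideanSpace ℝ (Fin n)) := (hV.toFinset.image rep).filter fun v => v ≠ 0
  have h0 : ∀ v ∈ D, v ≠ 0 := fun v hv => (Finset.mem_filter.1 hv).2
  have hrep : ∀ v ∈ D, ∃ w : EuclideanSpace ℝ (Fin n), ∃ hw : w ≠ 0, w ∈ V ∧
      v = (Projectivization.mk ℝ w hw).rep := by
    intro v hv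
    obtain ⟨hv1, hv2⟩ := Finset.mem_filter.1 hv
    obtain ⟨w, hw, hwv⟩ := Finset.mem_image.1 hv1
    by_cases h : w = 0
    · simp only [rep, h, dif_pos] at hwv
      exact absurd hwv.symm hv2
    · refine ⟨w, h, hV.mem_toFinset.1 hw, ?_⟩
      rw [← hwv]
      simp only [rep, h, dif_neg, not_false_eq_true]
  have hD : ∀ v ∈ D, ∀ w ∈ D, v ≠ w → ∀ c : ℝ, v ≠ c • w := by
    intro v hv w hw hvw c hc
    apply hvw
    obtain ⟨v', hv', _, rfl⟩ := hrep v hv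
    obtain ⟨w', hw', _, rfl⟩ := hrep w hw
    congr 1
    rw [← Projectivization.mk_rep (Projectivization.mk ℝ v' hv'),
      ← Projectivization.mk_rep (Projectivization.mk ℝ w' hw'), Projectivization.mk_eq_mk_iff']
    exact ⟨c, hc.symm⟩
  refine ⟨D.card, fun i => (D.equivFin.symm i : EuclideanSpace ℝ (Fin n)),
    ⟨fun i => h0 _ (D.equivFin.symm i).2, fun i j hij c => hD _ (D.equivFin.symm i).2 _
      (D.equivFin.symm j).2 (fun h => hij (D.equivFin.symm.injective (Subtype.ext h))) c⟩, ?_⟩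
  rintro X _ _ ν ⟨S, hS⟩
  have hS' : ∀ d ∈ D, ν.nrm (S d) = ‖d‖ := by
    intro d hd
    have h1 := hS (D.equivFin ⟨d, hd⟩)
    simp only [Equiv.symm_apply_apply] at h1
    exact h1
  refine ⟨S, fun v hv => ?_⟩
  by_cases hv0 : v = 0
  · rw [hv0, map_zero, map_zero, norm_zero]
  · obtain ⟨c, hc⟩ := Projectivization.exists_smul_eq_mk_rep ℝ v hv0
    have hmem : (Projectivization.mk ℝ v hv0).rep ∈ D := by
      rw [Finset.mem_filter, Finset.mem_image]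
      refine ⟨⟨v, hV.mem_toFinset.2 hv, ?_⟩, Projectivization.rep_nonzero _⟩
      simp only [rep, hv0, dif_neg, not_false_eq_true]
    have h1 := hS' _ hmem
    rw [← hc, Units.smul_def, map_smul, map_smul_eq_mul, norm_smul] at h1
    exact mul_left_cancel₀ (norm_ne_zero_iff.2 c.ne_zero) h1

theorem exists_tup_isomP {H : Type*} [NormedAddCommGroup H] [InnerProductSpace ℝ H] (A : Set H)
    (hA : A.Finite) :
    ∃ (n k : ℕ) (z : Fin k → EuclideanSpace ℝ (Fin n)), z ∈ Tup n k ∧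
      ∀ (X : Type u) [NormedAddCommGroup X] [NormedSpace ℝ X] (ν : EqNorm X), SolX ν z →
      ∃ f : A → X, ∀ a b : A, ν.nrm (f a - f b) = dist a b := by
  classical
  let W : Submodule ℝ H := Submodule.span ℝ A
  have : FiniteDimensional ℝ W := FiniteDimensional.span_of_finite ℝ hA
  let ι : A → W := fun a => ⟨a, Submodule.subset_span a.2⟩
  have : Finite A := hA
  let e := (stdOrthonormalBasis ℝ W).repr
  let V : Set (EuclideanSpace ℝ (Fin (Module.finrank ℝ W))) :=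
    Set.range fun q : A × A => e (ι q.1 - ι q.2)
  have hV : V.Finite := Set.finite_range _
  obtain ⟨k, z, hz, h⟩ := exists_tupP hV
  refine ⟨_, k, z, hz, fun X _ _ ν hν => ?_⟩
  obtain ⟨S, hS⟩ := h X ν hν
  refine ⟨fun a => S (e (ι a)), fun a b => ?_⟩
  rw [← map_sub, ← map_sub, hS _ ⟨(a, b), rfl⟩, e.norm_map, Subtype.dist_eq, dist_eq_norm]
  rfl

/-- **Main theorem, part 1.** -/
theorem main₁ (A : Set (lp (fun _ : ℕ => ℝ) 2)) (hA : A.Finite) :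
    ∃ c : ℝ, 0 < c ∧ ∀ (X : Type u) [NormedAddCommGroup X] [NormedSpace ℝ X],
      ¬ FiniteDimensional ℝ X → ∀ (ν₀ : EqNorm X) (ε : ℝ), 0 < ε → ε ≤ 1 →
        ∃ ν₁ : EqNorm X, dist ν₁ ν₀ < ε ∧ ∀ ν : EqNorm X, dist ν ν₁ < c * ε →
          ∃ f : A → X, ∀ a b : A, ν.nrm (f a - f b) = dist a b := by
  obtain ⟨n, k, z, hz, h⟩ := exists_tup_isomP A hA
  obtain ⟨c, hc, hc2⟩ := porousP (K := {z}) isCompact_singleton (Set.singleton_subset_iff.2 hz)
  refine ⟨c, hc, fun X _ _ hX ν₀ ε hε hε1 => ?_⟩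
  obtain ⟨ν₁, h1, h2⟩ := hc2 X hX ν₀ ε hε hε1
  exact ⟨ν₁, h1, fun ν hν => h X ν (h2 ν hν z rfl)⟩

/-- **Main theorem, part 2.** -/
theorem main₂ (X : Type u) [NormedAddCommGroup X] [NormedSpace ℝ X]
    (hX : ¬ FiniteDimensional ℝ X) :
    ∃ P : ℕ → Set (EqNorm X), (∀ j, IsClosed (P j) ∧ Porous (P j)) ∧ Dense (⋃ j, P j)ᶜ ∧
      ∀ ν ∉ ⋃ j, P j,
        (∀ A : Set (lp (fun _ : ℕ => ℝ) 2), A.Finite →
          ∃ f : A → X, ∀ a b : A, ν.nrm (f a - f b) = dist a b) ∧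
        ∀ (n : ℕ) (V : Set (EuclideanSpace ℝ (Fin n))), V.Finite →
          ∃ S : EuclideanSpace ℝ (Fin n) →ₗ[ℝ] X, ∀ v ∈ V, ν.nrm (S v) = ‖v‖ := by
  let q : ℕ → ℕ × ℕ × ℕ := (Denumerable.eqv (ℕ × ℕ × ℕ)).symm
  have hq : Function.Surjective q := (Denumerable.eqv (ℕ × ℕ × ℕ)).symm.surjective
  let Q : ℕ × ℕ × ℕ → Set (EqNorm X) := fun t =>
    interior {ν : EqNorm X | ∀ z ∈ Kc t.1 t.2.1 t.2.2, SolX ν z}
  refine ⟨fun j => (Q (q j))ᶜ, fun j => ⟨isOpen_interior.isClosed_compl, ?_⟩, ?_, ?_⟩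
  · obtain ⟨c, hc, h⟩ := porousP.{u} (isCompact_Kc (q j).1 (q j).2.1 (q j).2.2)
      (Kc_subset (q j).1 (q j).2.1 (q j).2.2)
    refine ⟨c, hc, fun ν₀ ε hε hε1 => ?_⟩
    obtain ⟨ν₁, h1, h2⟩ := h X hX ν₀ ε hε hε1
    refine ⟨ν₁, h1, fun ν hν hcon => hcon ?_⟩
    show ν ∈ interior _
    rw [mem_interior]
    exact ⟨ball ν₁ (c * ε), fun ν' hν' => h2 ν' hν', isOpen_ball, hν⟩
  · rw [compl_iUnion]
    simp only [compl_compl]
    exact dense_iInter_of_isOpen (fun j => isOpen_interior)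
      fun j => dense_interior hX (isCompact_Kc _ _ _) (Kc_subset _ _ _)
  · intro ν hν
    have hall : ∀ (n k : ℕ) (z : Fin k → EuclideanSpace ℝ (Fin n)), z ∈ Tup n k → SolX ν z := by
      intro n k z hz
      obtain ⟨m, hm⟩ := exists_mem_Kc hz
      obtain ⟨j, hj⟩ := hq (n, k, m)
      simp only [mem_iUnion, mem_compl_iff, not_exists, not_not] at hν
      have h1 := hν j
      rw [hj] at h1
      exact interior_subset h1 z hm
    refine ⟨fun A hA => ?_, fun n V hV => ?_⟩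
    · obtain ⟨n, k, z, hz, h⟩ := exists_tup_isomP A hA
      exact h X ν (hall n k z hz)
    · obtain ⟨k, z, hz, h⟩ := exists_tupP hV
      exact h X ν (hall n k z hz)

end P23H
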