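import Pool.Agent.Lib.P23H.FamU

/-!
# Module P23H.SolU: solvability with a margin linear in `ε`

PROOF. As `P23G.solve_of_family` (module `P23G.Fam`). Take `M, 𝒩, κ, r, U` from `famU` and `C` with
`𝒩 w ≤ C ‖w‖` (finite dimension; prove it with a basis or continuity of seminorms). For `z'` with
`‖z' i - z i‖ < c`, `0 < ε ≤ 1` and `μ` put `F u i = (μ (U u (z' i)) ^ 2 - (1 + ε κ) ‖z' i‖ ^ 2) / (ε κ)`. Then
`gs 𝒩 ε (U u (z' i)) ^ 2 = ‖z' i‖² + ε 𝒩(U u (z' i))²` and `|𝒩(U u (z' i))² - κ (‖z i‖² + u i)| ≤ K c` (as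
`|𝒩(U u (z' i)) - 𝒩(U u (z i))| ≤ C ‖z' i - z i‖`), `|μ² - gs²| ≤ ((1 + c ε)² - 1) gs² ≤ K c ε`, so
`|u i - F u i| ≤ K' c ≤ η` for small `c`, where `√k η ≤ r`. `P23d34e.exists_zero` (Brouwer, `τ = 0`) gives `u`
with `F u = 0`, and `S = (1 + ε κ)^(-1/2) • U u` works.
-/

set_option autoImplicit false

open Metric

namespace P23H

namespace SolUAux

theorem bnd {M : ℕ} (𝒩 : Seminorm ℝ (Eu M)) : ∃ C : ℝ, 0 ≤ C ∧ ∀ w, 𝒩 w ≤ C * ‖w‖ := by
  classical
  refine ⟨∑ i, 𝒩 (EuclideanSpace.single i 1), Finset.sum_nonneg fun i _ => apply_nonneg 𝒩 _,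
    fun w => ?_⟩
  have h1 : w = ∑ i, w i • EuclideanSpace.single i (1 : ℝ) := by
    ext j
    simp [Finset.sum_apply, Pi.single_apply]
  conv_lhs => rw [h1]
  refine (Finset.le_sum_of_subadditive (fun w => 𝒩 w) (map_zero 𝒩).le (map_add_le_add 𝒩)
    Finset.univ _).trans ?_
  rw [Finset.sum_mul]
  refine Finset.sum_le_sum fun i _ => ?_
  rw [map_smul_eq_mul, mul_comm]
  exact mul_le_mul_of_nonneg_left (PiLp.norm_apply_le w i) (apply_nonneg 𝒩 _)

end SolUAux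

open SolUAux

theorem famP {n k : ℕ} {z : Fin k → Eu n} (hz : z ∈ P23G.Tup n k) :
    ∃ (M : ℕ) (𝒩 : Seminorm ℝ (Eu M)) (c : ℝ), 0 < c ∧
      ∀ z' : Fin k → Eu n, (∀ i, ‖z' i - z i‖ < c) → SolP 𝒩 c z' := by
  obtain ⟨M, 𝒩, κ, r, U, hκ, hr, hU, hUn, hUz⟩ := famU hz
  obtain ⟨C, hC0, hC⟩ := bnd 𝒩
  obtain ⟨m, hm0, hm⟩ : ∃ m : ℝ, 0 ≤ m ∧ ∀ i, ‖z i‖ ≤ m := by
    refine ⟨∑ i, ‖z i‖, Finset.sum_nonneg fun d _ => norm_nonneg _, fun d => ?_⟩
    exact Finset.single_le_sum (f := fun i => ‖z i‖) (fun d _ => norm_nonneg _)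
      (Finset.mem_univ d)
  obtain ⟨η, hη0, hη⟩ : ∃ η : ℝ, 0 < η ∧ Real.sqrt (Fintype.card (Fin k)) * η ≤ r := by
    refine ⟨r / (Real.sqrt (Fintype.card (Fin k)) + 1), by positivity, ?_⟩
    rw [mul_div_assoc', div_le_iff₀ (by positivity)]
    nlinarith [Real.sqrt_nonneg (Fintype.card (Fin k) : ℝ)]
  set K : ℝ := 3 * ((1 + C ^ 2) * (m + 1) ^ 2) / κ + C ^ 2 * (2 * m + 1) / κ + (2 * m + 1) with hK
  have hK0 : 0 < K := by positivity
  obtain ⟨c, hc0, hc1, hcK⟩ : ∃ c : ℝ, 0 < c ∧ c ≤ 1 ∧ c * K ≤ η := by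
    refine ⟨min 1 (η / K), lt_min one_pos (by positivity), min_le_left _ _, ?_⟩
    calc min 1 (η / K) * K ≤ η / K * K := mul_le_mul_of_nonneg_right (min_le_right _ _) hK0.le
      _ = η := div_mul_cancel₀ _ hK0.ne'
  refine ⟨M, 𝒩, c, hc0, fun z' hz' ε hε0 hε1 μ hμ => ?_⟩
  have hgs : ∀ w, gs 𝒩 ε w ≤ (1 + C) * ‖w‖ := by
    intro w
    have h1 := gs_sq 𝒩 hε0.le w
    have h2 : gs 𝒩 ε w ^ 2 ≤ ((1 + C) * ‖w‖) ^ 2 := by
      rw [h1]
      have h3 : 𝒩 w ^ 2 ≤ (C * ‖w‖) ^ 2 := pow_le_pow_left₀ (apply_nonneg 𝒩 _) (hC w) 2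
      have h4 : ε * 𝒩 w ^ 2 ≤ 1 * (C * ‖w‖) ^ 2 :=
        mul_le_mul hε1 h3 (sq_nonneg _) zero_le_one
      nlinarith [mul_nonneg hC0 (sq_nonneg ‖w‖)]
    exact (sq_le_sq₀ (apply_nonneg _ _) (by positivity)).1 h2
  have hμc : Continuous μ := P23G.cont_seminorm (c := (1 + c * ε) * (1 + C)) μ fun w => by
    rw [mul_assoc]
    exact (hμ w).2.trans (mul_le_mul_of_nonneg_left (hgs w) (by positivity))
  have hεκ : 0 < ε * κ := by positivity
  have hz'n : ∀ i, ‖z' i‖ ≤ m + 1 := by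
    intro i
    have h1 : ‖z' i‖ ≤ ‖z' i - z i‖ + ‖z i‖ := by
      have := norm_add_le (z' i - z i) (z i)
      rwa [sub_add_cancel] at this
    have h2 := hz' i
    have h3 := hm i
    linarith
  obtain ⟨u, hu, hfix⟩ := Pool.Agent.Lib.P23d34e.exists_zero hr hη0.le
    (fun _ : Fin k => (0 : ℝ))
    (fun u i => (μ (U u (z' i)) ^ 2 - (1 + ε * κ) * ‖z' i‖ ^ 2) / (ε * κ)) (by
      apply continuousOn_pi.2
      intro i
      have h1 : ContinuousOn (fun u => μ (U u (z' i))) (closedBall 0 r) :=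
        hμc.comp_continuousOn (hU (z' i))
      exact ((h1.pow 2).sub continuousOn_const).div_const _) hη (by
      intro u hu i
      beta_reduce
      set a : ℝ := 𝒩 (U u (z' i)) with ha
      set b : ℝ := 𝒩 (U u (z i)) with hb
      have ha0 : 0 ≤ a := apply_nonneg _ _
      have hb0 : 0 ≤ b := apply_nonneg _ _
      have hb2 : b ^ 2 = κ * (‖z i‖ ^ 2 + u i) := hUz u hu i
      have hg2 := gs_sq 𝒩 hε0.le (U u (z' i))
      rw [← ha, hUn u hu] at hg2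
      set g : ℝ := gs 𝒩 ε (U u (z' i)) with hg
      have hg0 : 0 ≤ g := apply_nonneg _ _
      have hmu := hμ (U u (z' i))
      rw [← hg] at hmu
      have haC : a ≤ C * ‖z' i‖ := by
        have := hC (U u (z' i))
        rwa [hUn u hu] at this
      have hbC : b ≤ C * ‖z i‖ := by
        have := hC (U u (z i))
        rwa [hUn u hu] at this
      have hz1 := hz'n i
      have hz2 := hm i
      have hzc : |‖z' i‖ - ‖z i‖| ≤ c := (abs_norm_sub_norm_le _ _).trans (hz' i).le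
      have hab : |a - b| ≤ C * c := by
        refine (abs_sub_map_le_sub 𝒩 _ _).trans ?_
        rw [← map_sub]
        refine (hC _).trans ?_
        rw [hUn u hu]
        exact mul_le_mul_of_nonneg_left (hz' i).le hC0
      -- the error of `𝒩`
      have e2 : |a ^ 2 - b ^ 2| ≤ c * (C ^ 2 * (2 * m + 1)) := by
        have h1 : a ^ 2 - b ^ 2 = (a - b) * (a + b) := by ring
        have h2 : |a + b| ≤ C * (2 * m + 1) := by
          rw [abs_of_nonneg (by linarith)]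
          have h3 : C * ‖z' i‖ ≤ C * (m + 1) := mul_le_mul_of_nonneg_left hz1 hC0
          have h4 : C * ‖z i‖ ≤ C * m := mul_le_mul_of_nonneg_left hz2 hC0
          linarith
        rw [h1, abs_mul]
        calc |a - b| * |a + b| ≤ (C * c) * (C * (2 * m + 1)) :=
              mul_le_mul hab h2 (abs_nonneg _) (by positivity)
          _ = c * (C ^ 2 * (2 * m + 1)) := by ring
      -- the error of the norm of `z'`
      have e3 : |‖z i‖ ^ 2 - ‖z' i‖ ^ 2| ≤ c * (2 * m + 1) := by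
        have h1 : ‖z i‖ ^ 2 - ‖z' i‖ ^ 2 = -((‖z' i‖ - ‖z i‖) * (‖z' i‖ + ‖z i‖)) := by ring
        have h2 : |‖z' i‖ + ‖z i‖| ≤ 2 * m + 1 := by
          rw [abs_of_nonneg (by positivity)]
          linarith
        rw [h1, abs_neg, abs_mul]
        exact mul_le_mul hzc h2 (abs_nonneg _) hc0.le
      -- the error of `μ`
      have hgB : g ^ 2 ≤ (1 + C ^ 2) * (m + 1) ^ 2 := by
        rw [hg2]
        have h1 : a ^ 2 ≤ (C * ‖z' i‖) ^ 2 := pow_le_pow_left₀ ha0 haC 2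
        have h2 : ‖z' i‖ ^ 2 ≤ (m + 1) ^ 2 := pow_le_pow_left₀ (norm_nonneg _) hz1 2
        have h3 : ε * a ^ 2 ≤ 1 * (C * ‖z' i‖) ^ 2 := mul_le_mul hε1 h1 (sq_nonneg _) zero_le_one
        have h4 : C ^ 2 * ‖z' i‖ ^ 2 ≤ C ^ 2 * (m + 1) ^ 2 :=
          mul_le_mul_of_nonneg_left h2 (sq_nonneg _)
        rw [mul_pow] at h3
        linarith
      have e1 : |μ (U u (z' i)) ^ 2 - g ^ 2| ≤ ε * (c * (3 * ((1 + C ^ 2) * (m + 1) ^ 2))) := by
        have h1 : g ^ 2 ≤ μ (U u (z' i)) ^ 2 := pow_le_pow_left₀ hg0 hmu.1 2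
        have h2 : μ (U u (z' i)) ^ 2 ≤ ((1 + c * ε) * g) ^ 2 :=
          pow_le_pow_left₀ (apply_nonneg _ _) hmu.2 2
        rw [abs_of_nonneg (by linarith)]
        have h3 : (c * ε) ^ 2 ≤ c * ε := by
          have h4 : c * ε ≤ 1 := by
            calc c * ε ≤ 1 * 1 := mul_le_mul hc1 hε1 hε0.le zero_le_one
              _ = 1 := one_mul 1
          have h5 : 0 ≤ c * ε := by positivity
          nlinarith
        have h6 : ((1 + c * ε) * g) ^ 2 - g ^ 2 = (2 * (c * ε) + (c * ε) ^ 2) * g ^ 2 := by ring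
        have h7 : (2 * (c * ε) + (c * ε) ^ 2) * g ^ 2 ≤ (3 * (c * ε)) * ((1 + C ^ 2) * (m + 1) ^ 2) :=
          mul_le_mul (by linarith) hgB (sq_nonneg _) (by positivity)
        linarith
      have key : 0 + u i - (μ (U u (z' i)) ^ 2 - (1 + ε * κ) * ‖z' i‖ ^ 2) / (ε * κ) =
          -((μ (U u (z' i)) ^ 2 - g ^ 2) / (ε * κ)) - (a ^ 2 - b ^ 2) / κ -
            (‖z i‖ ^ 2 - ‖z' i‖ ^ 2) := by
        have h1 : g ^ 2 = ‖z' i‖ ^ 2 + ε * a ^ 2 := hg2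
        rw [h1, hb2]
        field_simp
        ring
      rw [key]
      have k1 : |(μ (U u (z' i)) ^ 2 - g ^ 2) / (ε * κ)| ≤
          c * (3 * ((1 + C ^ 2) * (m + 1) ^ 2) / κ) := by
        rw [abs_div, abs_of_pos hεκ, div_le_iff₀ hεκ]
        have h1 : c * (3 * ((1 + C ^ 2) * (m + 1) ^ 2) / κ) * (ε * κ) =
            ε * (c * (3 * ((1 + C ^ 2) * (m + 1) ^ 2))) := by
          field_simp
        rw [h1]
        exact e1
      have k2 : |(a ^ 2 - b ^ 2) / κ| ≤ c * (C ^ 2 * (2 * m + 1) / κ) := by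
        rw [abs_div, abs_of_pos hκ, div_le_iff₀ hκ]
        have h1 : c * (C ^ 2 * (2 * m + 1) / κ) * κ = c * (C ^ 2 * (2 * m + 1)) := by
          field_simp
        rw [h1]
        exact e2
      have k3 : c * K = c * (3 * ((1 + C ^ 2) * (m + 1) ^ 2) / κ) +
          c * (C ^ 2 * (2 * m + 1) / κ) + c * (2 * m + 1) := by
        rw [hK]; ring
      rw [abs_le] at k1 k2 e3 ⊢
      constructor <;> linarith [k1.1, k1.2, k2.1, k2.2, e3.1, e3.2])
  have hpos : 0 < 1 + ε * κ := by linarith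
  refine ⟨(√(1 + ε * κ))⁻¹ • U u, fun i => ?_⟩
  have h1 := hfix i
  beta_reduce at h1
  rw [div_eq_zero_iff] at h1
  have h2 : μ (U u (z' i)) ^ 2 = (1 + ε * κ) * ‖z' i‖ ^ 2 := by
    rcases h1 with h1 | h1
    · linarith
    · exact absurd h1 hεκ.ne'
  have h3 : μ (U u (z' i)) = √(1 + ε * κ) * ‖z' i‖ := by
    have h4 : μ (U u (z' i)) ^ 2 = (√(1 + ε * κ) * ‖z' i‖) ^ 2 := by
      rw [h2, mul_pow, Real.sq_sqrt hpos.le]
    exact (pow_left_inj₀ (apply_nonneg μ _) (by positivity) two_ne_zero).1 h4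
  have hs : 0 < √(1 + ε * κ) := Real.sqrt_pos.2 hpos
  rw [LinearMap.smul_apply, map_smul_eq_mul, h3, Real.norm_eq_abs, abs_of_pos (inv_pos.2 hs),
    ← mul_assoc, inv_mul_cancel₀ hs.ne', one_mul]

end P23H
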