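import Pool.Agent.Lib.P23H.FinalP

/-!
# Generic norms: one ball for all finite sets with separated directions
-/

set_option autoImplicit false

open Filter Topology Set Metric
open scoped InnerProductSpace RealInnerProductSpace

universe u

namespace P23H

open P23G

/-- The lines through two points of `A` are parallel or well separated: any two differences `v`, `w`
of points of `A` satisfy `|⟪v, w⟫| = ‖v‖ ‖w‖` or `|⟪v, w⟫| ≤ (1 - d) ‖v‖ ‖w‖`. -/
def Sep {H : Type*} [NormedAddCommGroup H] [InnerProductSpace ℝ H] (d : ℝ) (A : Set H) : Prop :=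
  ∀ a ∈ A, ∀ b ∈ A, ∀ a' ∈ A, ∀ b' ∈ A,
    |inner ℝ (a - b) (a' - b')| = ‖a - b‖ * ‖a' - b'‖ ∨
    |inner ℝ (a - b) (a' - b')| ≤ (1 - d) * (‖a - b‖ * ‖a' - b'‖)

/-- `A` embeds isometrically into `(X, ν)`. -/
def Emb {H : Type*} [NormedAddCommGroup H] (A : Set H) {X : Type*} [NormedAddCommGroup X]
    [NormedSpace ℝ X] (ν : EqNorm X) : Prop :=
  ∃ f : A → X, ∀ a b : A, ν.nrm (f a - f b) = dist a b

/-- a unit vector on the line of `v`, the same for all nonzero vectors of the line -/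
noncomputable def rho {n : ℕ} (v : EuclideanSpace ℝ (Fin n)) : EuclideanSpace ℝ (Fin n) := by
  classical
  exact if h : v = 0 then 0 else
    ‖(Projectivization.mk ℝ v h).rep‖⁻¹ • (Projectivization.mk ℝ v h).rep

theorem rho_eq {n : ℕ} {v : EuclideanSpace ℝ (Fin n)} (h : v ≠ 0) :
    rho v = ‖(Projectivization.mk ℝ v h).rep‖⁻¹ • (Projectivization.mk ℝ v h).rep := by
  unfold rho
  rw [dif_neg h]

theorem norm_rho {n : ℕ} {v : EuclideanSpace ℝ (Fin n)} (h : v ≠ 0) : ‖rho v‖ = 1 := by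
  rw [rho_eq h, norm_smul, norm_inv, norm_norm]
  exact inv_mul_cancel₀ (norm_ne_zero_iff.2 (Projectivization.rep_nonzero _))

theorem rho_smul {n : ℕ} {v : EuclideanSpace ℝ (Fin n)} (h : v ≠ 0) : ∃ s : ℝ, rho v = s • v := by
  obtain ⟨a, ha⟩ := Projectivization.exists_smul_eq_mk_rep ℝ v h
  refine ⟨‖(Projectivization.mk ℝ v h).rep‖⁻¹ * (a : ℝ), ?_⟩
  rw [rho_eq h, mul_smul, ← ha, Units.smul_def]

theorem smul_rho {n : ℕ} {v : EuclideanSpace ℝ (Fin n)} (h : v ≠ 0) : ∃ t : ℝ, v = t • rho v := by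
  obtain ⟨s, hs⟩ := rho_smul h
  have hs0 : s ≠ 0 := by
    rintro rfl
    rw [zero_smul] at hs
    have h1 := norm_rho h
    rw [hs, norm_zero] at h1
    exact zero_ne_one h1
  refine ⟨s⁻¹, ?_⟩
  rw [hs, smul_smul, inv_mul_cancel₀ hs0, one_smul]

theorem rho_par {n : ℕ} {v w : EuclideanSpace ℝ (Fin n)} (hv : v ≠ 0) (hw : w ≠ 0)
    (h : ∃ r : ℝ, r ≠ 0 ∧ w = r • v) : rho v = rho w := by
  obtain ⟨r, hr, hwv⟩ := h
  have h1 : Projectivization.mk ℝ v hv = Projectivization.mk ℝ w hw := by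
    rw [Projectivization.mk_eq_mk_iff']
    refine ⟨r⁻¹, ?_⟩
    rw [hwv, smul_smul, inv_mul_cancel₀ hr, one_smul]
  rw [rho_eq hv, rho_eq hw, h1]

theorem exists_unif {H : Type*} [NormedAddCommGroup H] [InnerProductSpace ℝ H] (k m : ℕ)
    (hm : 1 ≤ m) (A : Set H) (hA : A.Finite) (hk : A.ncard ≤ k)
    (hsep : ∀ a ∈ A, ∀ b ∈ A, ∀ a' ∈ A, ∀ b' ∈ A,
      |⟪a - b, a' - b'⟫_ℝ| = ‖a - b‖ * ‖a' - b'‖ ∨
      |⟪a - b, a' - b'⟫_ℝ| ≤ (1 - 1 / ((m : ℝ) + 1)) * (‖a - b‖ * ‖a' - b'‖)) :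
    ∃ z : Fin (k * k) → EuclideanSpace ℝ (Fin (k + k * k)), z ∈ Kc (k + k * k) (k * k) m ∧
      ∀ (X : Type u) [NormedAddCommGroup X] [NormedSpace ℝ X] (ν : EqNorm X), SolX ν z →
        ∃ f : A → X, ∀ a b : A, ν.nrm (f a - f b) = dist a b := by
  classical
  let W : Submodule ℝ H := Submodule.span ℝ A
  have hWfin : FiniteDimensional ℝ W := FiniteDimensional.span_of_finite ℝ hA
  have : Fintype A := hA.fintype
  have hcard : Fintype.card A ≤ k := by
    have h1 := Set.ncard_eq_toFinset_card' A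
    rw [Set.toFinset_card] at h1
    omega
  have hmk : Module.finrank ℝ W ≤ k := by
    have h1 := finrank_span_le_card (R := ℝ) A
    rw [Set.toFinset_card] at h1
    exact h1.trans hcard
  let b := stdOrthonormalBasis ℝ W
  let σ : Fin (Module.finrank ℝ W) → Fin (k + k * k) := fun i => Fin.castAdd (k * k) (Fin.castLE hmk i)
  have hσ : Function.Injective σ := fun i j h => by
    have h1 : (σ i : ℕ) = (σ j : ℕ) := by rw [h]
    exact Fin.ext h1
  let E : W →ₗ[ℝ] EuclideanSpace ℝ (Fin (k + k * k)) :=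
    b.toBasis.constr ℝ (fun i => EuclideanSpace.single (σ i) (1 : ℝ))
  have hEb : ∀ i, E (b i) = EuclideanSpace.single (σ i) (1 : ℝ) := fun i => by
    have h1 := b.toBasis.constr_basis ℝ (fun i => EuclideanSpace.single (σ i) (1 : ℝ)) i
    rwa [OrthonormalBasis.coe_toBasis] at h1
  let e : W →ₗᵢ[ℝ] EuclideanSpace ℝ (Fin (k + k * k)) :=
    E.isometryOfOrthonormal (v := b.toBasis) (by rw [b.coe_toBasis]; exact b.orthonormal) (by
      have h1 : (⇑E ∘ ⇑b.toBasis) =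
          (fun i => EuclideanSpace.single i (1 : ℝ)) ∘ σ := by
        funext i
        rw [Function.comp_apply, b.coe_toBasis, hEb]
        rfl
      rw [h1]
      exact (EuclideanSpace.orthonormal_single (𝕜 := ℝ)).comp σ hσ)
  have heE : ∀ w, e w = E w := fun w => rfl
  have hperp : ∀ (w : W) (j : Fin (k * k)),
      ⟪e w, EuclideanSpace.single (Fin.natAdd k j) (1 : ℝ)⟫_ℝ = 0 := by
    intro w j
    have h1 : (innerₗ (EuclideanSpace ℝ (Fin (k + k * k)))
        (EuclideanSpace.single (Fin.natAdd k j) (1 : ℝ))) ∘ₗ E = 0 := by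
      apply b.toBasis.ext
      intro i
      rw [b.coe_toBasis, LinearMap.comp_apply, hEb, LinearMap.zero_apply, innerₗ_apply_apply,
        EuclideanSpace.inner_single_right]
      have h2 : Fin.natAdd k j ≠ σ i := by
        intro h
        have h3 : ((Fin.natAdd k j : Fin (k + k * k)) : ℕ) = (σ i : ℕ) := by rw [h]
        have h4 : (σ i : ℕ) = (i : ℕ) := rfl
        rw [h4, Fin.val_natAdd] at h3
        have := i.2
        omega
      simp [h2.symm]
    have h2 := LinearMap.congr_fun h1 w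
    rw [LinearMap.comp_apply, innerₗ_apply_apply, LinearMap.zero_apply] at h2
    rw [heE, real_inner_comm]
    exact h2
  let ι : A → W := fun a => ⟨a, Submodule.subset_span a.2⟩
  let u : A × A → EuclideanSpace ℝ (Fin (k + k * k)) := fun q => e (ι q.1 - ι q.2)
  have hu_norm : ∀ q, ‖u q‖ = ‖(q.1 : H) - q.2‖ := fun q => by
    show ‖e (ι q.1 - ι q.2)‖ = _
    rw [e.norm_map]
    rfl
  have hu_inner : ∀ q q', ⟪u q, u q'⟫_ℝ = ⟪(q.1 : H) - q.2, (q'.1 : H) - q'.2⟫_ℝ := fun q q' => by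
    show ⟪e (ι q.1 - ι q.2), e (ι q'.1 - ι q'.2)⟫_ℝ = _
    rw [e.inner_map_map]
    rfl
  let D : Finset (EuclideanSpace ℝ (Fin (k + k * k))) :=
    (Finset.univ.filter (fun q : A × A => u q ≠ 0)).image (fun q => rho (u q))
  have hDcard : D.card ≤ k * k := by
    refine Finset.card_image_le.trans ((Finset.card_filter_le _ _).trans ?_)
    rw [Finset.card_univ, Fintype.card_prod]
    exact Nat.mul_le_mul hcard hcard
  have hDmem : ∀ d ∈ D, ∃ q, u q ≠ 0 ∧ rho (u q) = d := by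
    intro d hd
    obtain ⟨q, hq, rfl⟩ := Finset.mem_image.1 hd
    exact ⟨q, (Finset.mem_filter.1 hq).2, rfl⟩
  have hη0 : 0 ≤ 1 - 1 / ((m : ℝ) + 1) := by
    have : 1 / ((m : ℝ) + 1) ≤ 1 := by
      rw [div_le_one (by positivity)]
      have : (0 : ℝ) ≤ m := Nat.cast_nonneg _
      linarith
    linarith
  have hDD : ∀ d ∈ D, ∀ d' ∈ D, d ≠ d' → |⟪d, d'⟫_ℝ| ≤ 1 - 1 / ((m : ℝ) + 1) := by
    intro d hd d' hd' hne
    obtain ⟨q, hq, rfl⟩ := hDmem d hd
    obtain ⟨q', hq', rfl⟩ := hDmem d' hd'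
    have h1 := hsep q.1 q.1.2 q.2 q.2.2 q'.1 q'.1.2 q'.2 q'.2.2
    rw [← hu_inner, ← hu_norm, ← hu_norm] at h1
    rcases h1 with h1 | h1
    · exfalso
      apply hne
      rw [← Real.norm_eq_abs, norm_inner_eq_norm_iff hq hq'] at h1
      exact rho_par hq hq' h1
    · obtain ⟨t, ht⟩ := smul_rho hq
      obtain ⟨t', ht'⟩ := smul_rho hq'
      have hn : ‖u q‖ = |t| := by
        rw [ht, norm_smul, norm_rho hq, mul_one, Real.norm_eq_abs]
      have hn' : ‖u q'‖ = |t'| := by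
        rw [ht', norm_smul, norm_rho hq', mul_one, Real.norm_eq_abs]
      have hin : |⟪u q, u q'⟫_ℝ| = (|t| * |t'|) * |⟪rho (u q), rho (u q')⟫_ℝ| := by
        have h2 : ⟪u q, u q'⟫_ℝ = t * (t' * ⟪rho (u q), rho (u q')⟫_ℝ) := by
          conv_lhs => rw [ht, ht', real_inner_smul_left, real_inner_smul_right]
        rw [h2, abs_mul, abs_mul, mul_assoc]
      rw [hin, hn, hn', mul_comm (1 - 1 / ((m : ℝ) + 1))] at h1
      have hpos : 0 < |t| * |t'| := by
        rw [← hn, ← hn']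
        exact mul_pos (norm_pos_iff.2 hq) (norm_pos_iff.2 hq')
      exact le_of_mul_le_mul_left h1 hpos
  have hDnorm : ∀ d ∈ D, ‖d‖ = 1 := by
    intro d hd
    obtain ⟨q, hq, rfl⟩ := hDmem d hd
    exact norm_rho hq
  have hDperp : ∀ d ∈ D, ∀ j : Fin (k * k),
      ⟪d, EuclideanSpace.single (Fin.natAdd k j) (1 : ℝ)⟫_ℝ = 0 := by
    intro d hd j
    obtain ⟨q, hq, rfl⟩ := hDmem d hd
    obtain ⟨s, hs⟩ := rho_smul hq
    rw [hs, real_inner_smul_left]
    have h1 : ⟪u q, EuclideanSpace.single (Fin.natAdd k j) (1 : ℝ)⟫_ℝ = 0 := hperp _ j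
    rw [h1, mul_zero]
  let z : Fin (k * k) → EuclideanSpace ℝ (Fin (k + k * k)) := fun i =>
    if h : (i : ℕ) < D.card then (D.equivFin.symm ⟨i, h⟩ : EuclideanSpace ℝ (Fin (k + k * k)))
    else EuclideanSpace.single (Fin.natAdd k i) (1 : ℝ)
  have hz1 : ∀ (i : Fin (k * k)) (h : (i : ℕ) < D.card),
      z i = (D.equivFin.symm ⟨i, h⟩ : EuclideanSpace ℝ (Fin (k + k * k))) := fun i h => dif_pos h
  have hz2 : ∀ (i : Fin (k * k)) (_ : ¬ (i : ℕ) < D.card),
      z i = EuclideanSpace.single (Fin.natAdd k i) (1 : ℝ) := fun i h => dif_neg h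
  have hznorm : ∀ i, ‖z i‖ = 1 := by
    intro i
    by_cases h : (i : ℕ) < D.card
    · rw [hz1 i h]
      exact hDnorm _ (D.equivFin.symm ⟨i, h⟩).2
    · rw [hz2 i h]
      simp
  refine ⟨z, ⟨fun i => ?_, fun i j hij => ?_⟩, ?_⟩
  · rw [hznorm i]
    refine ⟨by exact_mod_cast hm, ?_⟩
    linarith
  · rw [hznorm i, hznorm j, mul_one, mul_one]
    by_cases hi : (i : ℕ) < D.card
    · by_cases hj : (j : ℕ) < D.card
      · rw [hz1 i hi, hz1 j hj]
        refine hDD _ (D.equivFin.symm ⟨i, hi⟩).2 _ (D.equivFin.symm ⟨j, hj⟩).2 ?_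
        intro h
        have h1 := D.equivFin.symm.injective (Subtype.ext h)
        apply hij
        exact Fin.ext (Fin.mk.inj h1)
      · rw [hz1 i hi, hz2 j hj, hDperp _ (D.equivFin.symm ⟨i, hi⟩).2 j, abs_zero]
        exact hη0
    · by_cases hj : (j : ℕ) < D.card
      · rw [hz2 i hi, hz1 j hj, real_inner_comm, hDperp _ (D.equivFin.symm ⟨j, hj⟩).2 i, abs_zero]
        exact hη0
      · rw [hz2 i hi, hz2 j hj]
        have h1 : (Fin.natAdd k i : Fin (k + k * k)) ≠ Fin.natAdd k j := by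
          intro h
          have h2 : ((Fin.natAdd k i : Fin (k + k * k)) : ℕ) = (Fin.natAdd k j : Fin (k + k * k)) := by
            rw [h]
          rw [Fin.val_natAdd, Fin.val_natAdd] at h2
          exact hij (Fin.ext (by omega))
        have h2 := (EuclideanSpace.orthonormal_single (𝕜 := ℝ) (ι := Fin (k + k * k))).2 h1
        rw [h2, abs_zero]
        exact hη0
  · rintro X _ _ ν ⟨S, hS⟩
    have hSD : ∀ d ∈ D, ν.nrm (S d) = 1 := by
      intro d hd
      have hlt : ((D.equivFin ⟨d, hd⟩ : Fin D.card) : ℕ) < k * k :=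
        lt_of_lt_of_le (D.equivFin ⟨d, hd⟩).2 hDcard
      have h1 := hS ⟨(D.equivFin ⟨d, hd⟩ : Fin D.card), hlt⟩
      rw [hznorm, hz1 _ (D.equivFin ⟨d, hd⟩).2] at h1
      simpa using h1
    refine ⟨fun a => S (e (ι a)), fun a c => ?_⟩
    have h1 : S (e (ι a)) - S (e (ι c)) = S (u (a, c)) := by
      rw [← map_sub, ← map_sub]
    have h2 : dist a c = ‖u (a, c)‖ := by
      rw [hu_norm, Subtype.dist_eq, dist_eq_norm]
    rw [h1, h2]
    by_cases h0 : u (a, c) = 0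
    · rw [h0, map_zero, map_zero, norm_zero]
    · obtain ⟨t, ht⟩ := smul_rho h0
      have hmem : rho (u (a, c)) ∈ D :=
        Finset.mem_image.2 ⟨(a, c), Finset.mem_filter.2 ⟨Finset.mem_univ _, h0⟩, rfl⟩
      have h3 := hSD _ hmem
      have h4 : ‖u (a, c)‖ = |t| := by
        conv_lhs => rw [ht, norm_smul, norm_rho h0, mul_one, Real.norm_eq_abs]
      rw [h4]
      conv_lhs => rw [ht, map_smul, map_smul_eq_mul, h3, mul_one, Real.norm_eq_abs]

/-- **Main theorem, part 1, uniform form.** -/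
theorem main₁' (k : ℕ) (δ : ℝ) (hδ : 0 < δ) :
    ∃ c : ℝ, 0 < c ∧ ∀ (X : Type u) [NormedAddCommGroup X] [NormedSpace ℝ X],
      ¬ FiniteDimensional ℝ X → ∀ (ν₀ : EqNorm X) (ε : ℝ), 0 < ε → ε ≤ 1 →
        ∃ ν₁ : EqNorm X, dist ν₁ ν₀ < ε ∧ ∀ ν : EqNorm X, dist ν ν₁ < c * ε →
          ∀ A : Set (lp (fun _ : ℕ => ℝ) 2), A.Finite → A.ncard ≤ k → Sep δ A → Emb A ν := by
  obtain ⟨m, hm⟩ := exists_nat_gt (1 / δ + 1)
  have hm1 : 1 ≤ m := by
    have h1 : (1 : ℝ) < m := by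
      have : 0 < 1 / δ := by positivity
      linarith
    exact_mod_cast h1.le
  have hmδ : 1 / ((m : ℝ) + 1) ≤ δ := by
    rw [div_le_iff₀ (by positivity)]
    have h1 : 1 / δ < (m : ℝ) + 1 := by linarith
    rw [div_lt_iff₀ hδ] at h1
    linarith
  obtain ⟨c, hc, h⟩ := porousP.{u} (isCompact_Kc (k + k * k) (k * k) m)
    (Kc_subset (k + k * k) (k * k) m)
  refine ⟨c, hc, fun X _ _ hX ν₀ ε hε hε1 => ?_⟩
  obtain ⟨ν₁, h1, h2⟩ := h X hX ν₀ ε hε hε1
  refine ⟨ν₁, h1, fun ν hν A hA hk hsep => ?_⟩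
  obtain ⟨z, hz, hf⟩ := exists_unif k m hm1 A hA hk (fun a ha b hb a' ha' b' hb' => by
    rcases hsep a ha b hb a' ha' b' hb' with h3 | h3
    · exact Or.inl h3
    · refine Or.inr (h3.trans ?_)
      apply mul_le_mul_of_nonneg_right _ (by positivity)
      linarith)
  exact hf X ν (h2 ν hν z hz)

end P23H
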